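import Pool.Agent.H94.G5T.M57
import Pool.Agent.H94.G5T.M75

/-!
# G3 R StepC: the lower bound for the divided differences of the scalar
-/

set_option autoImplicit false

open Topology Filter Metric

namespace Pool.Agent.G3.R

open Pool.Agent.H36.BP (EN fs wd)
open Pool.Agent.H14.PP (IsCone CurveAt Tan)
open Pool.Agent.H62.EF (MN pr)
open Pool.Agent.AD (Vd Chart Charts IsGerm)
open Pool.Agent.TG
open Pool.Agent.G3.C (Gc nv nd nv_pr pr_nv)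
open Pool.Agent.G3.A

variable {N k : ℕ} {X : Set (EN N)} {Λ : AddSubgroup (Vd (k + 1))} {u : EN N → Vd (k + 1)} {D B Bad : Set (Vd (k + 1))} {a b w : Vd (k + 1)} {E : Submodule ℝ (Vd (k + 1))}
  {SS : Set (Vd (k + 1) → MN N)} {J : ℕ} {α : Fin J → VForm X Λ u} {c₀ C₀ ρ δ : ℝ}

/-- uniform bounds for all orders `≤ m` -/
theorem ddb_unif (T : Set (Vd (k + 1))) {m : ℕ} (hm : ∀ j ≤ m, DDb D T SS w j) {δ' : ℝ} (hδ' : 0 < δ') : ∃ r C : ℝ, 0 < r ∧ 0 ≤ C ∧ ∀ j ≤ m, ∀ φ ∈ SS, ∀ y ∈ T, y ∈ Gd D δ' →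
    ∀ v : EN N, ‖v‖ = 1 → pr v = φ y → ∀ σ : ℕ → ℝ, Nod j σ r → ‖dd j σ fun s : ℝ => nv v (φ (y + (s : ℂ) • w))‖ ≤ C := by
  induction m with
  | zero =>
    obtain ⟨r, C, hr, hC, h⟩ := hm 0 le_rfl δ' hδ'
    refine ⟨r, C, hr, hC, fun j hj => ?_⟩
    obtain rfl : j = 0 := by omega
    exact h
  | succ m ih =>
    obtain ⟨r, C, hr, hC, h⟩ := ih fun j hj => hm j (by omega)
    obtain ⟨r', C', hr', hC', h'⟩ := hm (m + 1) le_rfl δ' hδ'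
    refine ⟨min r r', max C C', lt_min hr hr', hC.trans (le_max_left _ _), fun j hj φ hφ y hy hyG v hv hvφ σ hσ => ?_⟩
    rcases Nat.lt_or_ge j (m + 1) with hj' | hj'
    · exact (h j (by omega) φ hφ y hy hyG v hv hvφ σ (hσ.mono le_rfl (min_le_left _ _))).trans (le_max_left _ _)
    · obtain rfl : j = m + 1 := by omega
      exact (h' φ hφ y hy hyG v hv hvφ σ (hσ.mono le_rfl (min_le_right _ _))).trans (le_max_right _ _)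

/-- the representative of a point of a fibre in the affine chart -/
theorem nv_mem (hX : IsCone X) (hu : TMap X Λ u) {y : Vd (k + 1)} {m : MN N} (hm : m ∈ Fb X Λ u y) {v : EN N} (hne : ∀ x ∈ X, pr x = m → inner ℂ v x ≠ (0 : ℂ)) :
    nv v m ∈ X ∧ u (nv v m) - y ∈ Λ ∧ inner ℂ v (nv v m) = (1 : ℂ) ∧ pr (nv v m) = m := by
  obtain ⟨x, hx, rfl, hux⟩ := hm
  have h0 := hne x hx rfl
  have h1 : nv v (pr x) = (inner ℂ v x : ℂ)⁻¹ • x := nv_pr h0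
  have h2 : (inner ℂ v x : ℂ)⁻¹ ≠ 0 := inv_ne_zero h0
  refine ⟨?_, ?_, ?_, ?_⟩
  · rw [h1]
    exact hX.smul_mem x hx _ h2
  · rw [h1]
    exact smul_mem_lat hu hx hux h2
  · rw [h1, inner_smul_right, inv_mul_cancel₀ h0]
  · exact pr_nv h0

theorem step_low (S : DA X Λ u D B Bad a α c₀ C₀ ρ δ) (hS : Shs X Λ u D a b E SS) (hw : w ∈ E) {m : ℕ} (hm : ∀ j ≤ m, DDb D (Tb b E) SS w j) {𝒰 : Ultrafilter ℕ}
    (h𝒰 : (𝒰 : Filter ℕ) ≤ atTop) {φ : Vd (k + 1) → MN N} (hφ : φ ∈ SS) {σ : ℕ → ℕ → ℝ} {y : ℕ → Vd (k + 1)} (hσ : ∀ n, Nod (m + 1) (σ n) (1 / ((n : ℝ) + 1))) (hyT : ∀ n, y n ∈ Tb b E)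
    {y₀ : Vd (k + 1)} (hy : Tendsto y 𝒰 (𝓝 y₀)) (hy₀T : y₀ ∈ Tb b E) (hyG : ∀ n, y n ∈ Gd D (2 * δ)) (hy₀D : y₀ ∉ D) {v : ℕ → EN N} {v₀ : EN N} (hv : ∀ n, ‖v n‖ = 1)
    (hvφ : ∀ᶠ n in (𝒰 : Filter ℕ), pr (v n) = φ (y n)) (hvt : Tendsto v 𝒰 (𝓝 v₀)) (hv₀φ : pr v₀ = φ y₀) {β : VForm X Λ u} {R' : ℝ} {Ψ : EN N → ℂ} (hΨ : Prm β y₀ v₀ R' Ψ)
    {r M : ℝ} {Θ : ℂ × Vd (k + 1) → EN N} (hr : 0 < r) (hΘ : DifferentiableOn ℂ Θ (ball (Ψ v₀, y₀) r)) (hM : ∀ p ∈ ball (Ψ v₀, y₀) r, ‖Θ p‖ ≤ M) {r' : ℝ} (hr' : 0 < r')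
    (hinv : ∀ y ∈ ball y₀ r', ∀ x ∈ X, x ∈ ball v₀ r' → u x - y ∈ Λ → inner ℂ v₀ x = (1 : ℂ) → Θ (Ψ x, y) = x) :
    ∃ K : ℝ, 0 < K ∧ ∀ᶠ n in (𝒰 : Filter ℕ), sz w (m + 1) (σ n) φ (y n) (v n) ≤ K * (‖dd (m + 1) (σ n) fun s : ℝ => Ψ (nv v₀ (φ (y n + (s : ℂ) • w)))‖ + 1) := by
  have hδ := S.lc.δ_pos
  have hX := S.geo.cone
  have hu := S.geo.tor
  have hv₀ : ‖v₀‖ = 1 := hΨ.unit
  have hM0 : 0 ≤ M := (norm_nonneg _).trans (hM _ (mem_ball_self hr))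
  -- the constants
  obtain ⟨r₀, Cd, hr₀, hCd, hlow⟩ := ddb_unif (Tb b E) hm (show 0 < 2 * δ by linarith)
  obtain ⟨r₁, K₁, ε₁, hr₁, hK₁, hε₁, hn₁⟩ := dd_nv (N := N) m (κ := 1 / 2) (C := Cd) (by norm_num) hCd
  obtain ⟨r₂, K₂, ε₂, hr₂, hK₂, hε₂, hn₂⟩ := dd_nv (N := N) m (κ := 1 / 2) (C := K₁) (by norm_num) hK₁.le
  have hRp := hΨ.pos
  have hRp2 : 0 < R' / 2 := by linarith only [hRp]
  obtain ⟨M₁, hM₁⟩ : ∃ M₁ : ℝ, ∀ x ∈ closedBall v₀ (R' / 2), ‖Ψ x‖ ≤ M₁ := (isCompact_closedBall v₀ (R' / 2)).exists_bound_of_continuousOn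
    (hΨ.diff.continuousOn.mono (closedBall_subset_ball (by linarith)))
  have hM₁0 : 0 ≤ M₁ := (norm_nonneg _).trans (hM₁ v₀ (mem_closedBall_self hRp2.le))
  obtain ⟨r₃, K₃, hr₃, hK₃, hn₃⟩ := dd_comp_le m hRp2 hK₁.le
  set R₂ : ℝ := r / (2 * (‖w‖ + 1)) with hR₂
  have hw1 : 0 < ‖w‖ + 1 := by positivity
  have hR₂p : 0 < R₂ := by positivity
  have hR₂w : R₂ * ‖w‖ ≤ r / 2 := by
    rw [hR₂, div_mul_eq_mul_div, div_le_div_iff₀ (by positivity) two_pos]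
    nlinarith only [hr, norm_nonneg w]
  have hR₂r : R₂ ≤ r := by
    rw [hR₂, div_le_iff₀ (by positivity)]
    nlinarith only [hr, hw1, norm_nonneg w]
  obtain ⟨r₄, K₄, hr₄, hK₄, hn₄⟩ := dd_comp m hR₂p (mul_nonneg hK₃.le hM₁0)
  refine ⟨K₂ * (K₄ * M + 1), by positivity, ?_⟩
  -- the conditions on `n`
  have hrn : Tendsto (fun n : ℕ => 1 / ((n : ℝ) + 1)) 𝒰 (𝓝 0) := tendsto_one_div_add_atTop_nhds_zero_nat.mono_left h𝒰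
  have hev1 : ∀ r : ℝ, 0 < r → ∀ᶠ n : ℕ in (𝒰 : Filter ℕ), 1 / ((n : ℝ) + 1) ≤ r := fun r hr => (hrn.eventually_lt_const hr).mono fun n hn => hn.le
  have hyi : ∀ i ∈ Finset.range (m + 2), Tendsto (fun n => y n + (σ n i : ℂ) • w) 𝒰 (𝓝 y₀) := by
    intro i hi
    have h0 : Tendsto (fun n => σ n i) 𝒰 (𝓝 0) := squeeze_zero_norm (fun n => (hσ n).le i (by have := Finset.mem_range.1 hi; omega)) hrn
    have h1 : Tendsto (fun n => ((σ n i : ℝ) : ℂ) • w) 𝒰 (𝓝 (((0 : ℝ) : ℂ) • w)) := ((Complex.continuous_ofReal.tendsto 0).comp h0).smul_const w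
    rw [Complex.ofReal_zero, zero_smul] at h1
    have h2 := hy.add h1
    rwa [add_zero] at h2
  have hφi : ∀ i ∈ Finset.range (m + 2), Tendsto (fun n => φ (y n + (σ n i : ℂ) • w)) 𝒰 (𝓝 (φ y₀)) := fun i hi =>
    ((hS.sht φ hφ).cont y₀ hy₀T hy₀D).tendsto.comp (tendsto_nhdsWithin_iff.2 ⟨hyi i hi, Eventually.of_forall fun n => tb_add (hyT n) (smul_mem_E hw _)⟩)
  have hφn : Tendsto (fun n => φ (y n)) 𝒰 (𝓝 (φ y₀)) :=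
    ((hS.sht φ hφ).cont y₀ hy₀T hy₀D).tendsto.comp (tendsto_nhdsWithin_iff.2 ⟨hy, Eventually.of_forall hyT⟩)
  have hevφ : ∀ ε : ℝ, 0 < ε → ∀ᶠ n in (𝒰 : Filter ℕ), ∀ i ∈ Finset.range (m + 2), dist (φ (y n + (σ n i : ℂ) • w)) (φ y₀) < ε := fun ε hε =>
    (Finset.eventually_all _).2 fun i hi => (hφi i hi).eventually (ball_mem_nhds _ hε)
  have hevφn : ∀ ε : ℝ, 0 < ε → ∀ᶠ n in (𝒰 : Filter ℕ), dist (φ (y n)) (φ y₀) < ε := fun ε hε => hφn.eventually (ball_mem_nhds _ hε)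
  have hevy : ∀ ε : ℝ, 0 < ε → ∀ᶠ n in (𝒰 : Filter ℕ), ∀ i ∈ Finset.range (m + 2), y n + (σ n i : ℂ) • w ∈ ball y₀ ε := fun ε hε =>
    (Finset.eventually_all _).2 fun i hi => (hyi i hi).eventually (ball_mem_nhds _ hε)
  have hevy0 : ∀ᶠ n in (𝒰 : Filter ℕ), y n ∈ ball y₀ (r / 2) := hy.eventually (ball_mem_nhds _ (by linarith only [hr]))
  have hevin : ∀ᶠ n in (𝒰 : Filter ℕ), 1 / 2 ≤ ‖(inner ℂ v₀ (v n) : ℂ)‖ ∧ 1 / 2 ≤ ‖(inner ℂ (v n) v₀ : ℂ)‖ := by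
    have h1 : Tendsto (fun n => ‖(inner ℂ v₀ (v n) : ℂ)‖) 𝒰 (𝓝 ‖(inner ℂ v₀ v₀ : ℂ)‖) := ((continuous_const.inner continuous_id).norm.tendsto v₀).comp hvt
    have h2 : ‖(inner ℂ v₀ v₀ : ℂ)‖ = 1 := by
      rw [inner_self_eq_norm_sq_to_K, hv₀]
      simp
    rw [h2] at h1
    filter_upwards [h1.eventually_const_lt (show (1 / 2 : ℝ) < 1 by norm_num)] with n hn
    refine ⟨hn.le, ?_⟩
    rw [← inner_conj_symm, RCLike.norm_conj]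
    exact hn.le
  -- the chart `nv v₀` near `φ y₀`
  obtain ⟨εi, hεi, hin⟩ := inner_near (N := N) (η := 1 / 2) (by norm_num)
  obtain ⟨εa, hεa, hna⟩ := nv_near (N := N) (η := min (R' / 8) r') (lt_min (by linarith only [hRp]) hr')
  obtain ⟨εc, hεc, hnc⟩ : ∃ ε : ℝ, 0 < ε ∧ ∀ m : MN N, dist m (pr v₀) ≤ ε → ‖Ψ (nv v₀ m) - Ψ v₀‖ < R₂ / 4 := by
    have h1 : ContinuousAt Ψ v₀ := (hΨ.diff.differentiableAt (isOpen_ball.mem_nhds (mem_ball_self hRp))).continuousAt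
    obtain ⟨d, hd, h2⟩ := Metric.continuousAt_iff.1 h1 (R₂ / 4) (by linarith only [hR₂p])
    obtain ⟨ε, hε, h3⟩ := nv_near (N := N) hd
    refine ⟨ε, hε, fun m hm => ?_⟩
    have h4 := h3 v₀ hv₀ m hm
    rw [← dist_eq_norm] at h4 ⊢
    exact h2 h4
  filter_upwards [hev1 r₀ hr₀, hev1 r₁ hr₁, hev1 r₂ hr₂, hev1 r₃ hr₃, hev1 r₄ hr₄, hevφ (ε₁ / 2) (by linarith only [hε₁]), hevφn (ε₁ / 2) (by linarith only [hε₁]), hevφ ε₂ hε₂, hevφ εi hεi, hevφ εa hεa, hevφ εc hεc,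
    hevy r' hr', hevy0, hevin, hvφ] with n a0 a1 a2 a3 a4 b1 b1' b2 bi ba bc hyr' hy0 hinn hvn
  have hrange : ∀ i, i ≤ m + 1 → i ∈ Finset.range (m + 2) := fun i hi => Finset.mem_range.2 (by omega)
  have hfib : ∀ s : ℝ, φ (y n + (s : ℂ) • w) ∈ Fb X Λ u (y n + (s : ℂ) • w) := fun s => hS.fb hφ (tb_add (hyT n) (smul_mem_E hw s))
  have hlift : ∀ s : ℝ, ∃ x : EN N, x ≠ 0 ∧ φ (y n + (s : ℂ) • w) = pr x := by
    intro s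
    obtain ⟨x, hx, hpx, -⟩ := hfib s
    exact ⟨x, ne_zero hX hx, hpx.symm⟩
  -- lower orders in the chart `nv v₀`
  have hL₀ : ∀ j ≤ m, ‖dd j (σ n) fun s : ℝ => nv (v n) (φ (y n + (s : ℂ) • w))‖ ≤ Cd := fun j hj =>
    hlow j hj φ hφ (y n) (hyT n) (hyG n) (v n) (hv n) hvn (σ n) ((hσ n).mono (by omega) a0)
  have hL₁ := (hn₁ v₀ (v n) hv₀ (hv n) hinn.1 (σ n) (fun s : ℝ => φ (y n + (s : ℂ) • w)) ((hσ n).mono le_rfl a1) (fun i hi => by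
    obtain ⟨x, hx0, hx⟩ := hlift (σ n i)
    refine ⟨x, hx0, hx, ?_⟩
    rw [← hx, hvn]
    have h1 := b1 i (hrange i hi)
    have h2 := dist_triangle (φ (y n + (σ n i : ℂ) • w)) (φ y₀) (φ (y n))
    rw [dist_comm (φ y₀)] at h2
    linarith only [b1', h1, h2]) hL₀).1
  -- the order `m + 1`: from `nv v₀` to `nv (v n)`
  have hT := (hn₂ (v n) v₀ (hv n) hv₀ hinn.2 (σ n) (fun s : ℝ => φ (y n + (s : ℂ) • w)) ((hσ n).mono le_rfl a2) (fun i hi => by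
    obtain ⟨x, hx0, hx⟩ := hlift (σ n i)
    refine ⟨x, hx0, hx, ?_⟩
    rw [← hx, hv₀φ]
    exact (b2 i (hrange i hi)).le) hL₁).2
  -- lower orders of the scalar
  have hnear : ∀ i, i ≤ m + 1 → nv v₀ (φ (y n + (σ n i : ℂ) • w)) ∈ ball v₀ (min (R' / 8) r') := by
    intro i hi
    rw [mem_ball, dist_eq_norm]
    exact hna v₀ hv₀ _ (by rw [hv₀φ]; exact (ba i (hrange i hi)).le)
  have hS₁ := hn₃ (EN N) ℂ (fun p => Ψ p.1) v₀ M₁ hM₁0 (by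
    refine (hΨ.diff.mono (ball_subset_ball (by linarith only [hRp] : R' / 2 ≤ R'))).comp differentiable_fst.differentiableOn ?_
    rintro ⟨x, ζ⟩ ⟨hx, -⟩
    exact hx) (by
    rintro ⟨x, ζ⟩ ⟨hx, -⟩
    exact hM₁ x (ball_subset_closedBall hx)) (σ n) (fun s : ℝ => nv v₀ (φ (y n + (s : ℂ) • w))) ((hσ n).mono (by omega) a3) (fun i hi => by
    refine ball_subset_ball ?_ (hnear i (by omega))
    exact (min_le_left _ _).trans (by linarith only)) hL₁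
  -- the inverse
  have hcomp := hn₄ ℂ (EN N) (fun p => Θ (p.1, y n + p.2 • w)) (Ψ v₀) M hM0 (by
    refine hΘ.comp (by fun_prop) ?_
    rintro ⟨t, ζ⟩ ⟨ht, hζ⟩
    rw [mem_ball, Prod.dist_eq, max_lt_iff]
    refine ⟨(mem_ball.1 ht).trans_le hR₂r, ?_⟩
    rw [dist_eq_norm]
    have e : y n + ζ • w - y₀ = (y n - y₀) + ζ • w := by abel
    have h1 : ‖ζ • w‖ ≤ R₂ * ‖w‖ := by
      rw [norm_smul]
      exact mul_le_mul_of_nonneg_right (mem_ball_zero_iff.1 hζ).le (norm_nonneg _)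
    have h2 := mem_ball.1 hy0
    rw [dist_eq_norm] at h2
    simp only
    rw [e]
    exact (norm_add_le _ _).trans_lt (by linarith only [hR₂w, h1, h2])) (by
    rintro ⟨t, ζ⟩ ⟨ht, hζ⟩
    refine hM _ ?_
    rw [mem_ball, Prod.dist_eq, max_lt_iff]
    refine ⟨(mem_ball.1 ht).trans_le hR₂r, ?_⟩
    rw [dist_eq_norm]
    have e : y n + ζ • w - y₀ = (y n - y₀) + ζ • w := by abel
    have h1 : ‖ζ • w‖ ≤ R₂ * ‖w‖ := by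
      rw [norm_smul]
      exact mul_le_mul_of_nonneg_right (mem_ball_zero_iff.1 hζ).le (norm_nonneg _)
    have h2 := mem_ball.1 hy0
    rw [dist_eq_norm] at h2
    simp only
    rw [e]
    exact (norm_add_le _ _).trans_lt (by linarith only [hR₂w, h1, h2])) (σ n) (fun s : ℝ => Ψ (nv v₀ (φ (y n + (s : ℂ) • w)))) ((hσ n).mono le_rfl a4) (fun i hi => by
    rw [mem_ball, dist_eq_norm]
    exact hnc _ (by rw [hv₀φ]; exact (bc i (hrange i hi)).le)) hS₁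
  have hEq : (dd (m + 1) (σ n) fun s : ℝ => Θ (Ψ (nv v₀ (φ (y n + (s : ℂ) • w))), y n + (s : ℂ) • w)) = dd (m + 1) (σ n) fun s : ℝ => nv v₀ (φ (y n + (s : ℂ) • w)) := by
    refine dd_congr fun i hi => ?_
    obtain ⟨h1, h2, h3, -⟩ := nv_mem hX hu (hfib (σ n i)) (v := v₀) (fun x hx hpx => (hin v₀ hv₀ x (ne_zero hX hx) (by
      rw [hpx, hv₀φ]
      exact (bi i (hrange i hi)).le)).1)
    exact hinv _ (hyr' i (hrange i hi)) _ h1 (ball_subset_ball (min_le_right _ _) (hnear i hi)) h2 h3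
  simp only at hcomp
  rw [hEq] at hcomp
  have hdn : 0 ≤ ‖dd (m + 1) (σ n) fun s : ℝ => Ψ (nv v₀ (φ (y n + (s : ℂ) • w)))‖ := norm_nonneg _
  calc sz w (m + 1) (σ n) φ (y n) (v n) ≤ K₂ * (‖dd (m + 1) (σ n) fun s : ℝ => nv v₀ (φ (y n + (s : ℂ) • w))‖ + 1) := hT
    _ ≤ K₂ * (K₄ * M * (‖dd (m + 1) (σ n) fun s : ℝ => Ψ (nv v₀ (φ (y n + (s : ℂ) • w)))‖ + 1) + 1) := by
        have := hK₂.le
        gcongr
    _ ≤ K₂ * (K₄ * M + 1) * (‖dd (m + 1) (σ n) fun s : ℝ => Ψ (nv v₀ (φ (y n + (s : ℂ) • w)))‖ + 1) := by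
        have h5 : 0 ≤ K₂ * ‖dd (m + 1) (σ n) fun s : ℝ => Ψ (nv v₀ (φ (y n + (s : ℂ) • w)))‖ := mul_nonneg hK₂.le hdn
        nlinarith only [h5]

end Pool.Agent.G3.R
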