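import Pool.Agent.H94.G5T.M137
import Pool.Agent.H94.G5T.M155

/-!
# G3 R HolD: sheets over the whole space are complex differentiable on complex lines off `D`

`sheet_dif` (see `G3/R/Hol`).  `nv_lip`: the charts `nv v` are Lipschitz near `pr v`, uniformly in `v`.  `dq_hol`: difference quotients of holomorphic functions converge uniformly.
`dq_bd`: difference quotients of `Ψ (nv v (φ (y₀ + x a)))` are bounded by `C exp (-c |x|²)` (`exists_prm_unif`, `sheet_lip`).  `dq_lim`: `comb_lim` for three points.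
-/

set_option autoImplicit false

open Topology Filter Metric

namespace Pool.Agent.G3.R

open Pool.Agent.H36.BP (EN fs wd)
open Pool.Agent.H14.PP (IsCone CurveAt Tan)
open Pool.Agent.H62.EF (MN pr)
open Pool.Agent.AD (Vd Chart Charts IsGerm)
open Pool.Agent.TG
open Pool.Agent.G3.C (Gc HP nv nd nv_pr)
open Pool.Agent.G3.A

variable {N k : ℕ} {X : Set (EN N)} {Λ : AddSubgroup (Vd (k + 1))} {u : EN N → Vd (k + 1)} {D B Bad : Set (Vd (k + 1))} {a b : Vd (k + 1)}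
  {SS : Set (Vd (k + 1) → MN N)} {J : ℕ} {α : Fin J → VForm X Λ u} {c₀ C₀ ρ δ : ℝ}

/-! ### the charts `nv v` are Lipschitz -/

/-! ### difference quotients of holomorphic functions -/

/-! ### lifts of the values of a sheet -/

private theorem unit_lift (S : DA X Λ u D B Bad a α c₀ C₀ ρ δ) (hS : Shs X Λ u D a b ⊤ SS) {φ : Vd (k + 1) → MN N} (hφ : φ ∈ SS) (y : Vd (k + 1)) :
    ∃ v ∈ X, ‖v‖ = 1 ∧ pr v = φ y ∧ u v - y ∈ Λ := by
  obtain ⟨x, hx, hxm, hu⟩ := hS.fb hφ (y := y) (show y - b ∈ (⊤ : Submodule ℝ (Vd (k + 1))) from Submodule.mem_top)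
  obtain ⟨c, hc, h1, h2⟩ := Pool.Agent.TG.exists_unit S.geo.cone hx
  exact ⟨c • x, h1, by rwa [mem_sphere_zero_iff_norm] at h2, by rw [Pool.Agent.H62.EF.pr_smul x hc, hxm], smul_mem_lat S.geo.tor hx hu hc⟩

private theorem lift_of (S : DA X Λ u D B Bad a α c₀ C₀ ρ δ) (hS : Shs X Λ u D a b ⊤ SS) {φ : Vd (k + 1) → MN N} (hφ : φ ∈ SS) {y : Vd (k + 1)} {v : EN N} (hv : ‖v‖ = 1)
    (hv' : pr v = φ y) : v ∈ X ∧ u v - y ∈ Λ := by
  obtain ⟨x, hx, hx1, hxm, hu⟩ := unit_lift S hS hφ y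
  have hv0 : v ≠ 0 := by
    rintro rfl
    simp at hv
  obtain ⟨c, hc, hcx⟩ := (Pool.Agent.H62.EF.pr_eq_iff hv0 (ne_zero S.geo.cone hx)).1 (hv'.trans hxm.symm)
  rw [hcx]
  exact ⟨S.geo.cone.smul_mem x hx c hc, smul_mem_lat S.geo.tor hx hu hc⟩

private theorem lift_nv (S : DA X Λ u D B Bad a α c₀ C₀ ρ δ) (hS : Shs X Λ u D a b ⊤ SS) {φ : Vd (k + 1) → MN N} (hφ : φ ∈ SS) {y₀ : Vd (k + 1)} (h0 : y₀ ∉ D) {v : EN N}
    (hv : ‖v‖ = 1) (hv' : pr v = φ y₀) {r' : ℝ} (hr' : 0 < r') : ∀ᶠ y in 𝓝 y₀, nv v (φ y) ∈ X ∧ nv v (φ y) ∈ ball v r' ∧ u (nv v (φ y)) - y ∈ Λ ∧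
      inner ℂ v (nv v (φ y)) = (1 : ℂ) := by
  obtain ⟨ε₁, hε₁, h1⟩ := nv_near (N := N) hr'
  obtain ⟨ε₂, hε₂, h2⟩ := inner_near (N := N) (η := 1 / 2) (by norm_num)
  have hc := cont_at hS hφ h0
  have h3 : ∀ᶠ y in 𝓝 y₀, dist (φ y) (φ y₀) < min ε₁ ε₂ := hc.eventually (ball_mem_nhds _ (lt_min hε₁ hε₂))
  filter_upwards [h3] with y hy
  rw [← hv'] at hy
  obtain ⟨x, hx, hx1, hxm, hu⟩ := unit_lift S hS hφ y
  have hi := (h2 v hv x (ne_zero S.geo.cone hx) (by rw [hxm]; exact hy.le.trans (min_le_right _ _))).1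
  have e : nv v (φ y) = (inner ℂ v x : ℂ)⁻¹ • x := by rw [← hxm, nv_pr hi]
  refine ⟨?_, ?_, ?_, ?_⟩
  · rw [e]
    exact S.geo.cone.smul_mem x hx _ (inv_ne_zero hi)
  · rw [mem_ball, dist_eq_norm]
    exact h1 v hv _ (hy.le.trans (min_le_left _ _))
  · rw [e]
    exact smul_mem_lat S.geo.tor hx hu (inv_ne_zero hi)
  · rw [e, inner_smul_right, inv_mul_cancel₀ hi]

/-! ### the bound of the difference quotients -/

private theorem dq_bd (S : DA X Λ u D B Bad a α c₀ C₀ ρ δ) (hS : Shs X Λ u D a b ⊤ SS) {φ : Vd (k + 1) → MN N} (hφ : φ ∈ SS) (j : Fin J) (w y₀ : Vd (k + 1)) {δ' : ℝ} (hδ' : 0 < δ') :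
    ∃ C c' : ℝ, 0 < c' ∧ ∀ z₀ : ℂ, y₀ + z₀ • a ∈ Gd D δ' → ∃ (Ψ : EN N → ℂ) (v : EN N) (R t : ℝ), Prm (α j) (y₀ + z₀ • a) v R Ψ ∧ pr v = φ (y₀ + z₀ • a) ∧ 0 < t ∧
      ∃ s : ℝ, 0 < s ∧ ∀ ζ : ℂ, ζ ≠ 0 → ‖ζ‖ < s → ∀ x ∈ ball z₀ t,
        ‖ζ⁻¹ * (Ψ (nv v (φ (y₀ + ζ • w + x • a))) - Ψ (nv v (φ (y₀ + x • a))))‖ ≤ C * Real.exp (-(c' * ‖x‖ ^ 2)) := by
  obtain ⟨R, M, c, hR, hM, hc, hprm⟩ := exists_prm_unif S.geo (S.dec j) S.c_pos S.C_pos hδ'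
  obtain ⟨rL, CL, hrL, hCL, hlip⟩ := sheet_lip S hS (δ' := δ' / 2) (by linarith)
  obtain ⟨ε, hε, hnear⟩ := nv_near (N := N) (η := R / 2) (by linarith)
  have ha := S.lg.norm
  -- `τ`: all points within `τ`
  set τ : ℝ := min (min (rL / 2) (δ' / 4)) (min (min ε (1 / 2) / (2 * CL)) (1 / 2)) with hτ
  have hτ0 : 0 < τ := by
    refine lt_min (lt_min (by linarith) (by linarith)) (lt_min ?_ (by norm_num))
    have : 0 < min ε (1 / 2 : ℝ) := lt_min hε (by norm_num)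
    positivity
  have τ1 : τ ≤ rL / 2 := (min_le_left _ _).trans (min_le_left _ _)
  have τ2 : τ ≤ δ' / 4 := (min_le_left _ _).trans (min_le_right _ _)
  have τ3 : τ ≤ min ε (1 / 2) / (2 * CL) := (min_le_right _ _).trans (min_le_left _ _)
  have τ4 : τ ≤ 1 / 2 := (min_le_right _ _).trans (min_le_right _ _)
  have τ5 : CL * (2 * τ) ≤ min ε (1 / 2) := by
    have h1 : 0 < 2 * CL := by linarith only [hCL]
    rw [le_div_iff₀ h1] at τ3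
    linarith only [τ3]
  refine ⟨4 * M / R * (10 * (CL * ‖w‖)) * Real.exp (c * (1 + ‖y₀‖) ^ 2), c / 2, by linarith only [hc], fun z₀ hz₀ => ?_⟩
  obtain ⟨v, hvX, hv, hvm, huv⟩ := unit_lift S hS hφ (y₀ + z₀ • a)
  obtain ⟨Ψ, hΨ, hΨb⟩ := hprm (y₀ + z₀ • a) hz₀ v hvX hv huv
  refine ⟨Ψ, v, R, τ, hΨ, hvm, hτ0, τ / (‖w‖ + 1), by positivity, fun ζ hζ0 hζ x hx => ?_⟩
  have hζw : ‖ζ • w‖ < τ := by
    rw [norm_smul]
    rw [lt_div_iff₀ (by positivity)] at hζ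
    nlinarith only [hζ, norm_nonneg ζ, norm_nonneg w]
  rw [mem_ball, dist_eq_norm] at hx
  have hxa : ‖(x - z₀) • a‖ < τ := by rwa [norm_smul, ha, mul_one]
  -- the points of the fibres
  have hgd : y₀ + z₀ • a ∈ Gd D (δ' / 2) := gd_mono (by linarith only [hτ0, τ2]) hz₀
  have hgx : y₀ + x • a ∈ Gd D (δ' / 2) := by
    have e : y₀ + x • a - (y₀ + z₀ • a) = (x - z₀) • a := by rw [sub_smul]; abel
    refine gd_mono ?_ (gd_near (r := τ) hz₀ (by rw [e]; exact hxa.le))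
    linarith only [hτ0, τ2]
  have d0 : dist (φ (y₀ + x • a)) (pr v) ≤ min ε (1 / 2) := by
    rw [hvm]
    have e : y₀ + x • a - (y₀ + z₀ • a) = (x - z₀) • a := by rw [sub_smul]; abel
    have h1 := hlip φ hφ _ hgd (y₀ + x • a) (by rw [e]; linarith only [hτ0, τ1, hxa])
    rw [e] at h1
    refine h1.trans (le_trans ?_ τ5)
    exact mul_le_mul_of_nonneg_left (by linarith only [hτ0, hxa]) hCL.le
  have d1 : dist (φ (y₀ + ζ • w + x • a)) (pr v) ≤ min ε (1 / 2) := by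
    rw [hvm]
    have e : y₀ + ζ • w + x • a - (y₀ + z₀ • a) = ζ • w + (x - z₀) • a := by rw [sub_smul]; abel
    have h2 : ‖ζ • w + (x - z₀) • a‖ ≤ 2 * τ := by
      refine (norm_add_le _ _).trans ?_
      linarith only [hζw, hxa]
    have h1 := hlip φ hφ _ hgd (y₀ + ζ • w + x • a) (by rw [e]; linarith only [τ1, h2])
    rw [e] at h1
    refine h1.trans (le_trans ?_ τ5)
    exact mul_le_mul_of_nonneg_left h2 hCL.le
  have d2 : dist (φ (y₀ + ζ • w + x • a)) (φ (y₀ + x • a)) ≤ CL * ‖ζ • w‖ := by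
    have e : y₀ + ζ • w + x • a - (y₀ + x • a) = ζ • w := by abel
    have h1 := hlip φ hφ _ hgx (y₀ + ζ • w + x • a) (by rw [e]; linarith only [hτ0, τ1, hζw])
    rwa [e] at h1
  have n0 : nv v (φ (y₀ + x • a)) ∈ ball v (R / 2) := by
    rw [mem_ball, dist_eq_norm]
    exact hnear v hv _ (d0.trans (min_le_left _ _))
  have n1 : nv v (φ (y₀ + ζ • w + x • a)) ∈ ball v (R / 2) := by
    rw [mem_ball, dist_eq_norm]
    exact hnear v hv _ (d1.trans (min_le_left _ _))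
  have l1 := lip_comp hR hΨ.diff hΨb n1 n0
  have l2 := nv_lip hv (d1.trans (min_le_right _ _)) (d0.trans (min_le_right _ _))
  have hζ1 : 0 < ‖ζ‖ := norm_pos_iff.2 hζ0
  -- the weight
  have hy1 : ‖x‖ ≤ ‖y₀ + z₀ • a‖ + (1 + ‖y₀‖) := by
    have e : x • a = (y₀ + z₀ • a) + ((x - z₀) • a - y₀) := by rw [sub_smul]; abel
    have h1 : ‖x • a‖ = ‖x‖ := by rw [norm_smul, ha, mul_one]
    rw [← h1]
    conv_lhs => rw [e]
    refine (norm_add_le _ _).trans ?_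
    have h2 := norm_sub_le ((x - z₀) • a) y₀
    linarith only [hτ0, τ4, hxa, h2]
  have hexp : Real.exp (-(c * ‖y₀ + z₀ • a‖ ^ 2)) ≤ Real.exp (c * (1 + ‖y₀‖) ^ 2) * Real.exp (-(c / 2 * ‖x‖ ^ 2)) := by
    rw [← Real.exp_add]
    refine Real.exp_le_exp.2 ?_
    have h1 : ‖x‖ ^ 2 ≤ 2 * ‖y₀ + z₀ • a‖ ^ 2 + 2 * (1 + ‖y₀‖) ^ 2 := by
      have h2 : ‖x‖ ^ 2 ≤ (‖y₀ + z₀ • a‖ + (1 + ‖y₀‖)) ^ 2 := pow_le_pow_left₀ (norm_nonneg _) hy1 2
      nlinarith only [h2, sq_nonneg (‖y₀ + z₀ • a‖ - (1 + ‖y₀‖))]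
    nlinarith only [hc, h1]
  have hMR : 0 ≤ 4 * (M * Real.exp (-(c * ‖y₀ + z₀ • a‖ ^ 2))) / R := by positivity
  have l3 : ‖Ψ (nv v (φ (y₀ + ζ • w + x • a))) - Ψ (nv v (φ (y₀ + x • a)))‖ ≤ 4 * (M * Real.exp (-(c * ‖y₀ + z₀ • a‖ ^ 2))) / R * (10 * (CL * (‖ζ‖ * ‖w‖))) := by
    refine l1.trans (mul_le_mul_of_nonneg_left (l2.trans ?_) hMR)
    rw [← norm_smul]
    exact mul_le_mul_of_nonneg_left d2 (by norm_num)
  rw [norm_mul, norm_inv]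
  calc ‖ζ‖⁻¹ * ‖Ψ (nv v (φ (y₀ + ζ • w + x • a))) - Ψ (nv v (φ (y₀ + x • a)))‖
      ≤ ‖ζ‖⁻¹ * (4 * (M * Real.exp (-(c * ‖y₀ + z₀ • a‖ ^ 2))) / R * (10 * (CL * (‖ζ‖ * ‖w‖)))) := mul_le_mul_of_nonneg_left l3 (by positivity)
    _ = 4 * M / R * (10 * (CL * ‖w‖)) * Real.exp (-(c * ‖y₀ + z₀ • a‖ ^ 2)) := by
      field_simp
    _ ≤ 4 * M / R * (10 * (CL * ‖w‖)) * (Real.exp (c * (1 + ‖y₀‖) ^ 2) * Real.exp (-(c / 2 * ‖x‖ ^ 2))) := by
      refine mul_le_mul_of_nonneg_left hexp ?_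
      positivity
    _ = _ := by ring

/-! ### the difference quotients converge -/

private theorem dq_lim (S : DA X Λ u D B Bad a α c₀ C₀ ρ δ) (hS : Shs X Λ u D a b ⊤ SS) {φ : Vd (k + 1) → MN N} (hφ : φ ∈ SS) {y₀ : Vd (k + 1)} (h0 : y₀ ∉ D) {v : EN N}
    (hv' : pr v = φ y₀) (w : Vd (k + 1)) {j : Fin J} {R : ℝ} {Ψ : EN N → ℂ} (hΨ : Prm (α j) y₀ v R Ψ) :
    DifferentiableAt ℂ (fun ζ : ℂ => Ψ (nv v (φ (y₀ + ζ • w)))) 0 := by
  set Q : ℂ → ℂ := fun ζ => ζ⁻¹ * (Ψ (nv v (φ (y₀ + ζ • w))) - Ψ (nv v (φ y₀))) with hQ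
  have hT : ∀ y, y ∈ Tb b (⊤ : Submodule ℝ (Vd (k + 1))) := fun y => show y - b ∈ (⊤ : Submodule ℝ (Vd (k + 1))) from Submodule.mem_top
  have key : Tendsto (fun n : ℂ × ℂ => Q n.1 - Q n.2) (𝓝[≠] 0 ×ˢ 𝓝[≠] 0) (𝓝 0) := by
    rw [Filter.tendsto_iff_ultrafilter]
    intro 𝒰 h𝒰
    have t1 : Tendsto (fun n : ℂ × ℂ => n.1) 𝒰 (𝓝[≠] 0) := tendsto_fst.mono_left h𝒰
    have t2 : Tendsto (fun n : ℂ × ℂ => n.2) 𝒰 (𝓝[≠] 0) := tendsto_snd.mono_left h𝒰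
    have t1' : Tendsto (fun n : ℂ × ℂ => n.1) 𝒰 (𝓝 0) := t1.mono_right nhdsWithin_le_nhds
    have t2' : Tendsto (fun n : ℂ × ℂ => n.2) 𝒰 (𝓝 0) := t2.mono_right nhdsWithin_le_nhds
    have e1 : ∀ᶠ n : ℂ × ℂ in (𝒰 : Filter (ℂ × ℂ)), n.1 ≠ 0 := t1.eventually (eventually_mem_nhdsWithin.mono fun z hz => hz)
    have e2 : ∀ᶠ n : ℂ × ℂ in (𝒰 : Filter (ℂ × ℂ)), n.2 ≠ 0 := t2.eventually (eventually_mem_nhdsWithin.mono fun z hz => hz)
    -- the constants of the geometry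
    obtain ⟨s₀, hs₀, hgd⟩ := S.geo.exists_gd h0
    obtain ⟨ρ₀, hρ₀, hρ'⟩ := exists_lc S.lg
    obtain ⟨δ₀, hδ₀, hlc⟩ := hρ' (min ρ₀ s₀) (lt_min hρ₀ hs₀) (min_le_left _ _)
    have hlc' := hlc δ₀ hδ₀ le_rfl
    obtain ⟨C, c', hc', hbd⟩ := dq_bd S hS hφ j w y₀ (δ' := δ₀ / 2) (by linarith only [hδ₀])
    set y : Fin 3 → ℂ × ℂ → Vd (k + 1) := ![fun _ => y₀, fun n => y₀ + n.1 • w, fun n => y₀ + n.2 • w] with hy
    set c : ℂ × ℂ → Fin 3 → ℂ := fun n => ![n.2⁻¹ - n.1⁻¹, n.1⁻¹, -n.2⁻¹] with hc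
    have ty : ∀ i, Tendsto (y i) 𝒰 (𝓝 y₀) := by
      have a1 : Tendsto (fun n : ℂ × ℂ => y₀ + n.1 • w) 𝒰 (𝓝 y₀) := by
        have := (tendsto_const_nhds (x := y₀)).add (t1'.smul_const w)
        rwa [zero_smul, add_zero] at this
      have a2 : Tendsto (fun n : ℂ × ℂ => y₀ + n.2 • w) 𝒰 (𝓝 y₀) := by
        have := (tendsto_const_nhds (x := y₀)).add (t2'.smul_const w)
        rwa [zero_smul, add_zero] at this
      intro i
      fin_cases i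
      · exact tendsto_const_nhds
      · exact a1
      · exact a2
    have hcomb := comb_lim (𝒰 := 𝒰) (α := α j) (f := fun i n z => φ (y i n + z • a)) (g := fun z => φ (y₀ + z • a)) (c := c) (C := 2 * C) (c' := c') S.geo S.lg S.cr S.good hlc' ty
      (fun i => Filter.Eventually.of_forall fun n => (hS.sht φ hφ).line _ (hT _)) ((hS.sht φ hφ).line _ (hT _))
      (fun i => hS.lm hφ (fun n => hT _) (hT _) (ty i)) ?_ hc' ?_ h0 ?_ hΨ (by simpa using hv')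
    · refine hcomb.congr' ?_
      filter_upwards [e1, e2] with n hn1 hn2
      simp only [Fin.sum_univ_three, hc, hy, Matrix.cons_val_zero, Matrix.cons_val_one, Matrix.cons_val, zero_smul, add_zero, hQ]
      ring
    · -- holomorphic functions
      intro x hx h hh
      obtain ⟨τ, C', L, hτ, hC', hest⟩ := dq_hol hh w
      refine ⟨τ, hτ, fun ε hε => ?_⟩
      have q1 : ∀ᶠ n : ℂ × ℂ in (𝒰 : Filter (ℂ × ℂ)), ‖n.1 • w‖ < τ ∧ C' * ‖w‖ * ‖n.1 • w‖ < ε / 2 := by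
        have a1 : Tendsto (fun n : ℂ × ℂ => ‖n.1 • w‖) 𝒰 (𝓝 0) := by
          have := (t1'.smul_const w).norm
          rwa [zero_smul, norm_zero] at this
        have a2 : Tendsto (fun n : ℂ × ℂ => C' * ‖w‖ * ‖n.1 • w‖) 𝒰 (𝓝 0) := by
          have := a1.const_mul (C' * ‖w‖)
          rwa [mul_zero] at this
        exact (a1.eventually (gt_mem_nhds hτ)).and (a2.eventually (gt_mem_nhds (by linarith only [hε])))
      have q2 : ∀ᶠ n : ℂ × ℂ in (𝒰 : Filter (ℂ × ℂ)), ‖n.2 • w‖ < τ ∧ C' * ‖w‖ * ‖n.2 • w‖ < ε / 2 := by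
        have a1 : Tendsto (fun n : ℂ × ℂ => ‖n.2 • w‖) 𝒰 (𝓝 0) := by
          have := (t2'.smul_const w).norm
          rwa [zero_smul, norm_zero] at this
        have a2 : Tendsto (fun n : ℂ × ℂ => C' * ‖w‖ * ‖n.2 • w‖) 𝒰 (𝓝 0) := by
          have := a1.const_mul (C' * ‖w‖)
          rwa [mul_zero] at this
        exact (a1.eventually (gt_mem_nhds hτ)).and (a2.eventually (gt_mem_nhds (by linarith)))
      filter_upwards [e1, e2, q1, q2] with n hn1 hn2 hq1 hq2 x' hx'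
      rw [mem_ball, dist_eq_norm] at hx'
      have hqx : ‖y₀ + x' • a - (y₀ + x • a)‖ < τ := by
        have e : y₀ + x' • a - (y₀ + x • a) = (x' - x) • a := by rw [sub_smul]; abel
        rw [e, norm_smul, S.lg.norm, mul_one]
        exact hx'
      have one : ∀ ζ : ℂ, ζ ≠ 0 → ‖ζ • w‖ < τ → C' * ‖w‖ * ‖ζ • w‖ < ε / 2 →
          ‖ζ⁻¹ * (h (y₀ + ζ • w + x' • a) - h (y₀ + x' • a)) - L (y₀ + x' • a)‖ ≤ ε / 2 := by
        intro ζ hζ0 hζ1 hζ2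
        have h1 := hest (y₀ + x' • a) hqx ζ hζ1
        have e : y₀ + x' • a + ζ • w = y₀ + ζ • w + x' • a := by abel
        rw [e] at h1
        have e3 : ζ⁻¹ * (h (y₀ + ζ • w + x' • a) - h (y₀ + x' • a)) - L (y₀ + x' • a) =
            ζ⁻¹ * (h (y₀ + ζ • w + x' • a) - h (y₀ + x' • a) - ζ * L (y₀ + x' • a)) := by
          field_simp
        rw [e3, norm_mul, norm_inv]
        have hζ3 : 0 < ‖ζ‖ := norm_pos_iff.2 hζ0
        calc ‖ζ‖⁻¹ * ‖h (y₀ + ζ • w + x' • a) - h (y₀ + x' • a) - ζ * L (y₀ + x' • a)‖ ≤ ‖ζ‖⁻¹ * (C' * ‖ζ • w‖ * ‖ζ • w‖) :=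
              mul_le_mul_of_nonneg_left h1 (by positivity)
          _ = C' * ‖w‖ * ‖ζ • w‖ := by
            rw [norm_smul]
            field_simp
          _ ≤ ε / 2 := hζ2.le
      have o1 := one n.1 hn1 hq1.1 hq1.2
      have o2 := one n.2 hn2 hq2.1 hq2.2
      simp only [Fin.sum_univ_three, hc, hy, Matrix.cons_val_zero, Matrix.cons_val_one, Matrix.cons_val]
      have e4 : (n.2⁻¹ - n.1⁻¹) * h (y₀ + x' • a) + n.1⁻¹ * h (y₀ + n.1 • w + x' • a) + -n.2⁻¹ * h (y₀ + n.2 • w + x' • a) =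
          (n.1⁻¹ * (h (y₀ + n.1 • w + x' • a) - h (y₀ + x' • a)) - L (y₀ + x' • a)) - (n.2⁻¹ * (h (y₀ + n.2 • w + x' • a) - h (y₀ + x' • a)) - L (y₀ + x' • a)) := by
        ring
      rw [e4]
      refine (norm_sub_le _ _).trans ?_
      linarith only [o1, o2]
    · -- the bound
      intro z₀ hz₀
      obtain ⟨Ψ₁, v₁, R₁, t, p1, p2, p3, s, hs, p4⟩ := hbd z₀ hz₀
      refine ⟨Ψ₁, v₁, R₁, t, p1, p2, p3, ?_⟩
      have s1 : ∀ᶠ n : ℂ × ℂ in (𝒰 : Filter (ℂ × ℂ)), ‖n.1‖ < s := by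
        have := t1'.norm
        rw [norm_zero] at this
        exact this.eventually (gt_mem_nhds hs)
      have s2 : ∀ᶠ n : ℂ × ℂ in (𝒰 : Filter (ℂ × ℂ)), ‖n.2‖ < s := by
        have := t2'.norm
        rw [norm_zero] at this
        exact this.eventually (gt_mem_nhds hs)
      filter_upwards [e1, e2, s1, s2] with n hn1 hn2 hs1 hs2 x hx
      have o1 := p4 n.1 hn1 hs1 x hx
      have o2 := p4 n.2 hn2 hs2 x hx
      simp only [Fin.sum_univ_three, hc, hy, Matrix.cons_val_zero, Matrix.cons_val_one, Matrix.cons_val]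
      have e4 : (n.2⁻¹ - n.1⁻¹) * Ψ₁ (nv v₁ (φ (y₀ + x • a))) + n.1⁻¹ * Ψ₁ (nv v₁ (φ (y₀ + n.1 • w + x • a))) + -n.2⁻¹ * Ψ₁ (nv v₁ (φ (y₀ + n.2 • w + x • a))) =
          n.1⁻¹ * (Ψ₁ (nv v₁ (φ (y₀ + n.1 • w + x • a))) - Ψ₁ (nv v₁ (φ (y₀ + x • a)))) - n.2⁻¹ * (Ψ₁ (nv v₁ (φ (y₀ + n.2 • w + x • a))) - Ψ₁ (nv v₁ (φ (y₀ + x • a)))) := by
        ring
      rw [e4]
      refine (norm_sub_le _ _).trans ?_
      linarith only [o1, o2]
    · intro β hβ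
      have h1 := hgd β (S.lg.bad_sub hβ)
      have h2 : min ρ₀ s₀ ≤ s₀ := min_le_right _ _
      linarith
  -- the difference quotients are a Cauchy filter
  have hcau : Cauchy (map Q (𝓝[≠] (0 : ℂ))) := by
    rw [cauchy_map_iff]
    refine ⟨inferInstance, ?_⟩
    rw [tendsto_uniformity_iff_dist_tendsto_zero]
    have h1 := key.norm
    rw [norm_zero] at h1
    refine h1.congr fun n => ?_
    rw [dist_eq_norm]
  obtain ⟨q, hq⟩ := cauchy_map_iff_exists_tendsto.1 hcau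
  have hder : HasDerivAt (fun ζ : ℂ => Ψ (nv v (φ (y₀ + ζ • w)))) q 0 := by
    rw [hasDerivAt_iff_tendsto_slope_zero]
    refine hq.congr fun ζ => ?_
    simp only [hQ, zero_add, zero_smul, add_zero, smul_eq_mul]
  exact hder.differentiableAt

theorem sheet_dif (S : DA X Λ u D B Bad a α c₀ C₀ ρ δ) (hS : Shs X Λ u D a b ⊤ SS) {φ : Vd (k + 1) → MN N} (hφ : φ ∈ SS) {y₀ : Vd (k + 1)} (h0 : y₀ ∉ D) {v : EN N} (hv : ‖v‖ = 1)
    (hv' : pr v = φ y₀) (w : Vd (k + 1)) : DifferentiableAt ℂ (fun ζ : ℂ => nv v (φ (y₀ + ζ • w))) 0 := by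
  obtain ⟨hvX, huv⟩ := lift_of S hS hφ hv hv'
  obtain ⟨j, R, Ψ, r, M, Θ, hΨ, hr, hΘ, -, r', hr', hinv⟩ := exists_prm_inv S.geo S.sep h0 hvX hv huv
  have ht := dq_lim S hS hφ h0 hv' w hΨ
  have hΨ0 : Ψ (nv v (φ (y₀ + (0 : ℂ) • w))) = Ψ v := by rw [zero_smul, add_zero, ← hv', nv_self hv]
  have hΘ' : DifferentiableAt ℂ Θ (Ψ v, y₀) := (hΘ _ (mem_ball_self hr)).differentiableAt (isOpen_ball.mem_nhds (mem_ball_self hr))
  have hpair : DifferentiableAt ℂ (fun ζ : ℂ => (Ψ (nv v (φ (y₀ + ζ • w))), y₀ + ζ • w)) 0 := ht.prodMk (by fun_prop)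
  have hcomp : DifferentiableAt ℂ (fun ζ : ℂ => Θ (Ψ (nv v (φ (y₀ + ζ • w))), y₀ + ζ • w)) 0 := by
    refine DifferentiableAt.comp (g := Θ) (f := fun ζ : ℂ => (Ψ (nv v (φ (y₀ + ζ • w))), y₀ + ζ • w)) (0 : ℂ) ?_ hpair
    show DifferentiableAt ℂ Θ (Ψ (nv v (φ (y₀ + (0 : ℂ) • w))), y₀ + (0 : ℂ) • w)
    rw [hΨ0, zero_smul, add_zero]
    exact hΘ'
  refine hcomp.congr_of_eventuallyEq ?_
  have hlin : Tendsto (fun ζ : ℂ => y₀ + ζ • w) (𝓝 0) (𝓝 y₀) := by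
    have h1 : Continuous fun ζ : ℂ => y₀ + ζ • w := by fun_prop
    have h2 := h1.tendsto 0
    rwa [zero_smul, add_zero] at h2
  filter_upwards [hlin.eventually (lift_nv S hS hφ h0 hv hv' hr'), hlin.eventually (ball_mem_nhds y₀ hr')] with ζ hζ hζ'
  obtain ⟨h1, h2, h3, h4⟩ := hζ
  exact (hinv _ hζ' _ h1 h2 h3 h4).2.symm

end Pool.Agent.G3.R
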